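import Pool.Agent.U226.FX.SmashK

/-!
# A size bound for ONE variety `Z` implies the smash-nilpotence conjecture for all powers of `X`

Let `X` be a smooth projective complex variety which satisfies the sign conjecture `C⁺` (products of
curves, surfaces, abelian varieties, complete intersections and many others), `b` its total Betti
number, and let `Z` be an ARBITRARY nonempty smooth projective complex variety. Write `δ (n)` for the
dimension of the space of the homologically trivial cycles on `Z × X ^ n` (all codimensions, rational
coefficients) modulo the smash-nilpotent cycles, a number or infinity, `ρ_Z (n)`, `ρ (n)` for the ranks of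
the groups of cycles on `Z × X ^ n` and `X ^ n` modulo numerical equivalence. The conjecture of the question
for `Z × X ^ n` is `δ (n) = 0`. (Cycles algebraically equivalent to zero are smash-nilpotent, so that `δ (n)`
is at most the rank of the Griffiths groups of `Z × X ^ n`.)

Theorem.
(1) `δ (n) / ρ (n)` and `ρ_Z (n) / ρ (n)` converge for `n → ∞`; the limits `N` and `d` are natural numbers or
infinity, `d > 0`, and `d ≤ b(Z)` if `Z` satisfies `C⁺`. `N = 0` if and only if the conjecture holds for all
`Z × X ^ n`.
(2) **If `N` is finite, for example if `δ (n) ≤ c ρ (n)` for infinitely many `n` (for one `Z` and some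
constant `c`), then the conjecture holds for all powers of `X` and the motive of `X` is
finite-dimensional in the sense of Kimura.** Conversely if the motive of one variety `X` with `C⁺` is not
finite-dimensional, then for EVERY nonempty `Z` the homologically trivial cycles on `Z × X ^ n` modulo the
smash-nilpotent ones, hence also the Griffiths groups of `Z × X ^ n` tensored with `ℚ`, grow faster than every
multiple of `ρ (n)`.
(3) One inequality suffices: if `2 δ (n) < ρ (n)` for one `n ≥ 128 (m + 1) ^ 2 b ^ (2 m + 6)` (a bound which
does not depend on `Z`) then the conjecture holds for `Z × X ^ m`. If it fails for `Z × X ^ m` then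
`δ (2 n) ≥ b ^ (2 n) / (2 (n + 1) ^ (b ^ 2))` for all those `n`.

The question mentions that the conjecture for all varieties implies finite-dimensionality. Here
a bound for the size of the defect, for one fixed `Z`, is enough. Related: `MP_550f75_ag.FixedFactorLaw`
(numerically trivial instead of homologically trivial cycles, without (2) for motives) and the starting
result `MP_550f75_ag.ZeroOneLaw` (powers of `X`, numerical equivalence).

The setting. `C` is the category of Chow motives over `ℂ` with the correspondences of all degrees as
morphisms, a rigid symmetric monoidal pseudo-abelian category, `T = h(X)`, `tp T n = h(X ^ n)`,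
`B = h(Z)`, `𝟙_ C ⟶ B ⊗ tp T n` is `CH^*(Z × X ^ n)_ℚ`, `tpow α k` is the exterior power
`α × ⋯ × α`, `R` is the singular cohomology.

Idea of the proof. `Y ↦ (CH_hom / CH_⊗) (Z × Y)` is an additive functor; the law of the values of additive
functors on the powers of `X` (starting library `N64.AF`) gives the limit `N`, the criterion (3), and, if
`N` is finite, that `N` numerically trivial correspondences act as zero. Let `β` be a class on `Z × X ^ p`
with a dual class and `α` homologically trivial on `X ^ q`. Then `β × α ^ (× (1 + N))` is smash-nilpotent,
hence its image `α ^ (× (1 + N))`, hence `α`. For the last part of (2) it is proved that a correspondence `y`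
with smash-nilpotent class is nilpotent (`y ^ k` is a contraction of `y × ⋯ × y`), so that all homologically
trivial correspondences from `X ^ n` to itself are nilpotent, and `C⁺` is used to split `h(X)`.
-/

set_option autoImplicit false

open CategoryTheory MonoidalCategory Module Filter Topology
open Pool.Agent.Y112.SR Pool.Agent.Y112.KD Pool.Agent.N64.AF Pool.Agent.U226.FX
open scoped ENNReal

namespace Pool.Agent.Results.MP_bf8edd_ag.HomologicalLaw

universe v u w

/-- The law for homologically trivial classes modulo smash-nilpotent classes on the products of a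
fixed arbitrary `B` with the powers of `T`. -/
theorem result {C : Type u} [Category.{v} C] [Preadditive C] [MonoidalCategory C]
    [MonoidalPreadditive C] [SymmetricCategory C] [RightRigidCategory C]
    [Linear ℚ C] [MonoidalLinear ℚ C] [IsIdempotentComplete C]
    {K : Type w} [Field K] [IsAlgClosed K] [Algebra ℚ K] (R : SuperRealisation C K)
    (T : C) [ExactPairing T T] (h : IsPow ℚ R T) (B : C) :
    ∃ N d : ℕ∞, RatioTo ℚ T (hsDefect h.real B T) N ∧ RatioTo ℚ T (rankSeq ℚ B T) d ∧
      (N = 0 ↔ ∀ (n : ℕ) (α : 𝟙_ C ⟶ B ⊗ tp T n), R.H.map α = 0 → SmashNil α) ∧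
      (d = 0 ↔ ∀ (n : ℕ) (α : 𝟙_ C ⟶ B ⊗ tp T n), NumTriv α) ∧
      (R.CPlus B → d ≤ bt R B) ∧
      (d ≠ 0 → N ≠ ⊤ → Pool.Agent.R905.IsKimuraFinite T ∧
        ∀ (n : ℕ) (α : 𝟙_ C ⟶ tp T n), R.H.map α = 0 → SmashNil α) ∧
      ∀ (m n : ℕ) (α : 𝟙_ C ⟶ B ⊗ tp T m), R.H.map α = 0 → ¬ SmashNil α →
        128 * (m + 1) ^ 2 * bt R T ^ (2 * m + 6) ≤ n →
          (numRank ℚ (tp T n) : ℕ∞) ≤ 2 * hsDefect h.real B T n ∧
          ((bt R T ^ (2 * n) : ℕ) : ℕ∞) ≤
            (2 * (n + 1) ^ (bt R T ^ 2) : ℕ) * hsDefect h.real B T (n + n) :=
  hs_fixed h B

end Pool.Agent.Results.MP_bf8edd_ag.HomologicalLaw
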