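import Pool.Agent.U435.SP.Bundle2

/-!
# The nilpotence conjecture for all mixed motives over `ℂ` and over `ℚ`

Let `F : C ⥤ D` be the Betti realisation of the category `C` of geometric motives over a field. The
*mixed nilpotence conjecture* `MixedNilpotence F` says that every morphism `z : X ⟶ 𝟙` in `C` with
`F(z) = 0` is smash-nilpotent: `z ⊗ ⋯ ⊗ z = 0`. For Chow motives `X = M(X)(-r)[-2r]` this is Q1, for
the motives of smooth quasi-projective varieties it is the analogue of Q1 for higher Chow groups.

**Theorem.** Let `K` be an extension of the field `k` of characteristic zero (for instance `ℂ` and
`ℚ`). (1) The mixed nilpotence conjecture holds over `K` if and only if it holds over `k`; so Q1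
over `ℂ` follows from a statement over `ℚ`. (2) If it holds then the realisations over `K` and `k`
are conservative.

`M : BaseMotives T` are the motives over `k`, `N : MixedExtension M` the motives over `K`, with the
base change `b`. The known theorem used is `MorphismsSpreadOut`: the morphism `z` over `K` comes
from a morphism `z₀ : X₀ ⟶ 𝟙` over a smooth connected `k`-variety `p : U ⟶ k`; for `U` small, the
realisation of `X₀` has locally constant cohomology, the class of `z₀` is in the first step of the
Leray filtration of the cohomology of `U(ℂ)` with coefficients in the dual of the realisation of
`X₀`, and this filtration is multiplicative and of length at most `2 dim U`, so that the class of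
an exterior power of `z₀` over `U` is zero.
-/

set_option autoImplicit false

open CategoryTheory Limits MonoidalCategory Pretriangulated

universe v u v' u' w

namespace Pool.Agent.Results.MP_bf8edd_ag.MixedNilpotence

open Pool.Agent.Y116.MT Pool.Agent.U735.CV Pool.Agent.U435.SP

/-- (1) The nilpotence conjecture for all geometric motives over the extension `K` of `k` is
equivalent to the one over `k`; (2) it implies that the realisations over `K` and `k` are
conservative. -/
theorem result {E : Type w} [Field E] [CharZero E] (T : Coefficients.{v', u', w} E)
    (M : BaseMotives.{v, u} T) (N : MixedExtension M) :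
    (MixedNilpotence N.F ↔ MixedNilpotence M.F) ∧
    (MixedNilpotence M.F → N.F.ReflectsIsomorphisms ∧ M.F.ReflectsIsomorphisms) :=
  ⟨mixedNilpotence_iff' N, fun h =>
    have h1 := conservative_of_mixedNilpotence N ((mixedNilpotence_iff' N).2 h)
    ⟨h1, (conservative_iff' N).1 h1⟩⟩

end Pool.Agent.Results.MP_bf8edd_ag.MixedNilpotence
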