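import Pool.Agent.U213.OC.Main

/-!
# Homologically trivial one-cycles on products of varieties

`𝒱` is a class of smooth projective geometrically irreducible varieties over a field `k`, closed
under products (for the problem: all of them, `k = ℂ`), `C` the Chow groups with rational
coefficients (in the form of their formal properties, `IsChowProj`) and `H` a Weil cohomology theory
(`IsWeilProj`, for the problem: the Betti cohomology). The hypotheses are known facts:

* `CurveProperties C`: zero-cycles of degree zero are algebraically trivial, one-cycles are
  generated by the images of the fundamental classes of curves, and the motive `h^1` of a curve is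
  oddly finite-dimensional (Kimura);
* `AlbaneseProperty H X`: the Albanese projector (Murre);
* homologically trivial divisors on the product of two curves are smash-nilpotent (they are
  algebraically trivial; Voevodsky, Voisin).

Theorem.

1. (`PairCriterion`) A one-cycle on a product `X_1 × ⋯ × X_n`, `n ≥ 2`, of any varieties is
   smash-nilpotent if and only if its images in all the products `X_i × X_j` are.
2. Let `M` be any property of varieties. The homologically trivial one-cycles on ALL products of at
   least two factors, each of them a curve or a variety with the property `M`, are smash-nilpotent, if
   and only if this is so for the products `X × T` of ONE variety `X` with the property `M` and a curve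
   `T`.

So Voevodsky's conjecture for the one-cycles on arbitrary products of surfaces (and curves) is
equivalent to the conjecture for the threefolds `S × T`, `S` a surface and `T` a curve.  For
`M = ∅` the theorem contains the case of products of curves (Sebastian).
-/

set_option autoImplicit false

universe u v w

namespace Pool.Agent.Results.MP_bf8edd_ag.OneCyclesOnProducts

open Pool.Agent.H914 Pool.Agent.W492.BB Pool.Agent.TH133 Pool.Agent.X308.V Pool.Agent.X308.A
  Pool.Agent.U213.OC

/-- **Homologically trivial one-cycles on products.** -/
theorem result {k : Type u} [Field k] {𝒱 : VarClass k} {C : TheoryData.{u, v, 0} 𝒱 ℚ}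
    [IsChowProj C] {K : Type w} [Field K] {H : WeilTheoryData.{u, v, w} C K} [IsWeilProj H]
    (hP : CurveProperties C) (hA : ∀ X : 𝒱.Obj, AlbaneseProperty H X)
    (hT : NilpotentTimesCurves H fun T : 𝒱.Obj => T.dim = 1) :
    PairCriterion C ∧
      ∀ M : 𝒱.Obj → Prop, NilpotentOnProducts H M ↔ NilpotentTimesCurves H M :=
  ⟨pairCriterion hP, fun M => main hP hA hT M⟩

end Pool.Agent.Results.MP_bf8edd_ag.OneCyclesOnProducts
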