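import Mathlib
import Pool.Agent.U755.SN.Main
import Pool.Agent.U606.MD.Ghc

/-!
# Smash-nilpotence for motives of abelian type of small Hodge level

Let `X` be a complex abelian variety (`AV`, up to isogeny) in one of the classes (a), (b) below, and
`M = (X, p)` a direct summand of the Chow motive of `X`, for example `M = h(V)`, where `V` is a smooth
projective variety which is the image of `X`, or the image of a product of curves of positive genus
such that the product of their Jacobians is `X`.

**Theorem.** Let `i` be an integer, and suppose that `h^(s, t)(M) = 0` for all `s, t` such that `s + t`
is even, `min (s, t) ≤ i - 2` and `max (s, t) ≥ i + 2`. Then every homologically trivial cycle `z` of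
dimension `i` on `M` is smash-nilpotent: `z × ... × z = 0` for some number of factors.

In particular, if `h^(s, t)(M) = 0` for all `s, t` such that `s + t` is even and `|s - t| ≥ 4`, then
Voevodsky's conjecture holds for `M`, that is, for the cycles of all dimensions on `M`.

Examples. There is no condition on the Hodge numbers `h^(s, t)(M)` with `s + t` odd. For `M = h(V)`,
`V` a variety as above, the condition for the cycles of dimension two, and also for the cycles of
codimension two, is `h^(k, 0)(V) = 0` for all even `k ≥ 4`. So Voevodsky's conjecture holds for `V`
if `dim V = 4` and `h^(4, 0)(V) = 0`, and also if `dim V = 5` and `h^(4, 0)(V) = 0` (`h^(5, 0)(V)` is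
arbitrary); if `dim V = 6` it holds if `h^(4, 0)(V) = h^(6, 0)(V) = h^(5, 1)(V) = 0`.

The classes (a) and (b) (`IsGood` in `Pool.Agent.U606.MD.Defs`) are those of the starting file
`Pool.Agent.Results.MP_1c689d_ag.AbelianDominated`, where `P` is the class of the simple abelian
varieties of any dimension with small or generic period fields (`Pool.Agent.N994.PG.Stm`):

(a) all simple factors of `X` are in `P` or are factors of an abelian variety of dimension at most
three (for instance, `X` is a product of powers of at most three elliptic curves);

(b) there are finitely many CM types `T k`, divided into independent blocks, such that for each block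
all CM types of the CM fields in this block are conjugate, or the total dimension of the block is at
most three, or the block consists of all CM types of a Galois CM field of degree at most six; and
each simple factor of `X` is in `P`, or is a factor of one of the abelian varieties with the CM types
`T k`, or has no complex multiplication and belongs to one of the classes in `Typ` (of any
dimension), where an imaginary quadratic field which acts with two different multiplicities on the
tangent space must be the field of an elliptic curve of the first kind (fourfolds with such an
action are excluded).

The structures `ChowTheory` (`Pool.Agent.N178.BL.Defs`) and `Projectors` (`Pool.Agent.N178.MU.Defs`)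
collect the known properties of the Chow groups of complex abelian varieties which are used: the
formal properties of correspondences; Kimura's theorem that homologically trivial endomorphisms of
the motive are nilpotent; the semisimplicity of the category of motives of abelian varieties modulo
homological equivalence (Jannsen, Lieberman); the algebraic classes are a system `Sys` (Lefschetz,
Markman); the algebraicity of the isomorphisms `H^n(Y, ℚ) ≅ H_n(Y, ℚ)` given by a polarization
(Lieberman); the projectors of Deninger and Murre; the vanishing of the cycles of codimension at most
one on `h^n(Y)` for large `n`, and of the homologically trivial divisors on `h^2(Y)` (Beauville,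
Künnemann). The structure `Powers.Known` (`Pool.Agent.U755.SN.Defs`) collects the known properties of
the smash-nilpotent cycles on complex abelian varieties which are used: they form a subgroup which is
stable under correspondences (Voevodsky); it contains the cycles on `h_n(X)` for `n` odd (Kimura,
Kahn–Sebastian), the zero-cycles of degree zero (Voevodsky, Voisin) and the homologically trivial
one-cycles (Sebastian).

The proof. The part of `z` on `h_m(X)`, `m` odd, is smash-nilpotent. For `m` even the generalized
Hodge conjecture for `X` shows that the action of `p` on `H^m(X, ℚ)` is the one of a sum of
correspondences which factor through `h_n(Y)(k)`, for abelian varieties `Y`, where `n = m - 2 k`, and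
`k = max (m - i - 1, 0)` if `m ≤ 2 i`, and `k = i - 1` if `m > 2 i > 0`. In the first case the image of
`z` in `CH_(i - k)(h_n(Y))` is a homologically trivial cycle of codimension at most one on `h^n` of the
dual abelian variety, and it is zero (`Pool.Agent.N178.MU.Wt_zero`); in the second case it comes from a
homologically trivial one-cycle on `Y`, and it is smash-nilpotent. So there is a correspondence `T`
which acts as `p` on the cohomology and maps `z` to a smash-nilpotent cycle. The correspondence
`ν = p - T` is nilpotent, and `z = ν z + T z`, so `z = T z + ν T z + ν^2 T z + ...` is
smash-nilpotent.
-/

namespace Pool.Agent.Results.MP_bf8edd_ag.SmallHodgeLevel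

open Module Pool.Agent.Y90
open Pool.Agent.N178.BL (ChowTheory)
open Pool.Agent.N178.MU (Projectors HodgeZero)
open Pool.Agent.U606.MD (IsGood)
open Pool.Agent.U755.SN (Powers)

/-- Voevodsky's conjecture for the cycles of dimension `i` on the motive `M = (X, p)`: each cycle `z`
of dimension `i` on `M` which is homologically trivial is smash-nilpotent. The cycles on `X` are the
correspondences from the point `O` to `X`, those on `M` are the cycles `z` with `p z = z`. -/
def Voevodsky {C : ChowTheory} {O : AV} (S : Powers C O) {X : AV} (p : C.Co X X) (i : ℤ) : Prop :=
  ∀ z : C.Co O X, C.IsDeg i z → C.o p z = z → (∀ ω, C.pb z ω = 0) → S.SmashNilpotent z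

/-- The Hodge numbers `h^(s, t)(M) = h^(t, s)(M)` of `M = (X, p)` with `s + t` even, `s ≤ i - 2` and
`t ≥ i + 2` are zero. -/
def SmallLevel {C : ChowTheory} {X : AV} (p : C.Co X X) (i : ℤ) : Prop :=
  ∀ s t : ℕ, Even (s + t) → s ≤ i - 2 → i + 2 ≤ t → HodgeZero p s t ∧ HodgeZero p t s

/-- **Voevodsky's smash-nilpotence conjecture** for the direct summands `M = (X, p)` of the Chow
motives of the abelian varieties `X` in the classes (a), (b): for the cycles of dimension `i` if
`h^(s, t)(M) = 0` for `s + t` even, `min (s, t) ≤ i - 2`, `max (s, t) ≥ i + 2`; for all cycles if
`h^(s, t)(M) = 0` for `s + t` even, `|s - t| ≥ 4`. -/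
theorem result (C : ChowTheory) (K : Projectors C) (O : AV) (S : Powers C O) (hS : S.Known K)
    (X : AV) (hX : IsGood X) (p : C.Co X X) (hp : C.IsMotive p) :
    (∀ i : ℤ, SmallLevel p i → Voevodsky S p i) ∧
      ((∀ s t : ℕ, Even (s + t) → 4 ≤ |(s : ℤ) - t| → HodgeZero p s t) →
        ∀ i : ℤ, Voevodsky S p i) := by
  have h1 : ∀ i : ℤ, SmallLevel p i → Voevodsky S p i := fun i h z hz hpz h0 =>
    Pool.Agent.U755.SN.main hS (Pool.Agent.U606.MD.ghc hX) hp h hz hpz h0
  refine ⟨h1, fun h i => h1 i fun s t hst h2 h3 => ⟨h s t hst ?_, h t s (by rwa [add_comm]) ?_⟩⟩
  · rw [le_abs]
    omega
  · rw [le_abs]
    omega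

end Pool.Agent.Results.MP_bf8edd_ag.SmallHodgeLevel
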